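import Pool.Agent.Q54.EM.StmD

/-!
# Project EM, jobs FL1, FL2, FL3 (helper53)
-/

set_option autoImplicit false

namespace Pool.Agent.Q53.EM

open Finset Filter Topology
open Pool.Agent.Q54.EM

/-- monotone from a nonnegative derivative on an interval -/
theorem le_of_deriv {f f' : ℝ → ℝ} {a b : ℝ} (hab : a ≤ b)
    (h : ∀ t, a ≤ t → t ≤ b → HasDerivAt f (f' t) t) (h0 : ∀ t, a < t → t < b → 0 ≤ f' t) :
    f a ≤ f b := by
  have hc : ContinuousOn f (Set.Icc a b) := fun t ht =>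
    (h t ht.1 ht.2).continuousAt.continuousWithinAt
  have hm : MonotoneOn f (Set.Icc a b) := by
    apply monotoneOn_of_deriv_nonneg (convex_Icc a b) hc
    · intro t ht
      rw [interior_Icc] at ht
      exact (h t ht.1.le ht.2.le).differentiableAt.differentiableWithinAt
    · intro t ht
      rw [interior_Icc] at ht
      rw [(h t ht.1.le ht.2.le).deriv]
      exact h0 t ht.1 ht.2
  exact hm (Set.left_mem_Icc.2 hab) (Set.right_mem_Icc.2 hab) hab

/-- a comparison principle -/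
theorem nonneg_of_deriv {D D' : ℝ → ℝ} {b : ℝ} (hb : 0 ≤ b)
    (hd : ∀ t, 0 ≤ t → t ≤ b → HasDerivAt D (D' t) t) (h0 : 0 ≤ D 0)
    (h : ∀ t, 0 ≤ t → t ≤ b → D t < 0 → 0 ≤ D' t) : 0 ≤ D b := by
  by_contra hneg
  push Not at hneg
  have hc : ContinuousOn D (Set.Icc 0 b) := fun t ht =>
    (hd t ht.1 ht.2).continuousAt.continuousWithinAt
  set S : Set ℝ := {s | s ∈ Set.Icc 0 b ∧ 0 ≤ D s} with hS
  have hScl : IsClosed S := by
    have : S = Set.Icc 0 b ∩ D ⁻¹' (Set.Ici 0) := by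
      ext s
      simp [hS]
    rw [this]
    exact hc.preimage_isClosed_of_isClosed isClosed_Icc isClosed_Ici
  have hSne : S.Nonempty := ⟨0, ⟨le_refl 0, hb⟩, h0⟩
  have hSb : BddAbove S := ⟨b, fun s hs => hs.1.2⟩
  have hs : sSup S ∈ S := hScl.csSup_mem hSne hSb
  set s := sSup S with hsdef
  have h1 : D s ≤ D b := by
    refine le_of_deriv hs.1.2 (fun t ht1 ht2 => hd t (hs.1.1.trans ht1) ht2) ?_
    intro t ht1 ht2
    refine h t (hs.1.1.trans ht1.le) ht2.le ?_
    by_contra hcon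
    push Not at hcon
    have : t ∈ S := ⟨⟨hs.1.1.trans ht1.le, ht2.le⟩, hcon⟩
    have := le_csSup hSb this
    linarith
  have := hs.2
  linarith

section

variable {k q0 e l : ℝ} {h y g K lm o R3 H F T O : ℝ → ℝ}

theorem Hpos (fl : Flow k q0 e l h y g K lm o R3 H F T O) (t : ℝ) (ht : 0 ≤ t) : 0 < H t := by
  have h1 := fl.hH t ht
  have h2 := fl.hpos t ht
  have h3 := fl.l0
  rw [← h1] at h3
  exact (pos_iff_pos_of_mul_pos h3).1 h2

theorem H_le (fl : Flow k q0 e l h y g K lm o R3 H F T O) (t : ℝ) (ht : 0 ≤ t) :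
    H t ≤ 1 + e := by
  have h1 : - H 0 ≤ - H t := by
    refine le_of_deriv (f := fun s => - H s) ht (fun s hs _ => (fl.dH s hs).neg) ?_
    intro s hs _
    have := fl.hpos s hs.le
    have := Hpos fl s hs.le
    have := fl.g0 s hs.le
    rw [neg_neg]
    positivity
  rw [fl.iH] at h1
  linarith

theorem lm_ge (fl : Flow k q0 e l h y g K lm o R3 H F T O) (t : ℝ) (ht : 0 ≤ t) :
    1 - q0 ≤ lm t := by
  rw [← fl.il]
  refine le_of_deriv ht (fun s hs _ => fl.dlm s hs) ?_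
  intro s hs _
  have h1 := fl.hpos s hs.le
  have h2 := fl.lm0 s hs.le
  have h3 := fl.lm1 s hs.le
  have h4 := fl.o0 s hs.le
  have h5 : 0 ≤ 1 - lm s + o s := by linarith
  positivity

theorem y_nn (fl : Flow k q0 e l h y g K lm o R3 H F T O) (t : ℝ) (ht : 0 ≤ t) : 0 ≤ y t := by
  have h3 := fl.lm1 t ht
  have h4 := fl.o0 t ht
  have h5 := fl.qy t ht
  linarith

theorem K_nn (fl : Flow k q0 e l h y g K lm o R3 H F T O) (t : ℝ) (ht : 0 ≤ t) : 0 ≤ K t := by
  have h1 := fl.Kg t ht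
  have h2 := fl.lm0 t ht
  have h3 := fl.g0 t ht
  have h4 := y_nn fl t ht
  have : 0 ≤ lm t * (g t + y t) := by positivity
  linarith

theorem y_le (fl : Flow k q0 e l h y g K lm o R3 H F T O) (t : ℝ) (ht : 0 ≤ t) : y t ≤ y 0 := by
  have h1 : - y 0 ≤ - y t := by
    refine le_of_deriv (f := fun s => - y s) ht (fun s hs _ => (fl.dy s hs).neg) ?_
    intro s hs _
    have h1 := fl.hpos s hs.le
    have h2 := fl.lm0 s hs.le
    have h3 := fl.g0 s hs.le
    have h4 := y_nn fl s hs.le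
    have h5 := fl.Kg s hs.le
    have h6 := fl.qy s hs.le
    have h7 := fl.o0 s hs.le
    have h8 : 0 ≤ g s * (y s - (1 - lm s)) := mul_nonneg h3 (by linarith)
    have h9 : 0 ≤ lm s * y s := by positivity
    have h10 : 0 ≤ K s - (1 - y s) * g s := by nlinarith
    have h11 : 0 ≤ h s * (K s - (1 - y s) * g s) := by positivity
    linarith
  linarith

theorem O_nn (fl : Flow k q0 e l h y g K lm o R3 H F T O) (t : ℝ) (ht : 0 ≤ t) : 0 ≤ O t := by
  rw [← fl.O0]
  refine le_of_deriv ht (fun s hs _ => fl.dO s hs) ?_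
  intro s hs _
  have h1 := fl.hpos s hs.le
  have h2 := fl.lm0 s hs.le
  have h4 := y_nn fl s hs.le
  have h5 := fl.o0 s hs.le
  positivity

theorem T_mono (fl : Flow k q0 e l h y g K lm o R3 H F T O) (s t : ℝ) (hs : 0 ≤ s)
    (hst : s ≤ t) : T s ≤ T t := by
  refine le_of_deriv hst (fun u hu _ => fl.dT u (hs.trans hu)) ?_
  intro u hu _
  exact (fl.hpos u (hs.trans hu.le)).le

theorem T_nn (fl : Flow k q0 e l h y g K lm o R3 H F T O) (t : ℝ) (ht : 0 ≤ t) : 0 ≤ T t := by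
  have := T_mono fl 0 t le_rfl ht
  rwa [fl.T0] at this

theorem T_surj (fl : Flow k q0 e l h y g K lm o R3 H F T O) (c : ℝ) (hc : 0 ≤ c) :
    ∃ t, 0 ≤ t ∧ T t = c := by
  have he : 0 < 1 + e := by linarith [fl.e0]
  have hl := fl.l0
  set t₁ := c * (1 + e) / l with ht₁
  have ht₁0 : 0 ≤ t₁ := by positivity
  have h1 : T 0 - l / (1 + e) * 0 ≤ T t₁ - l / (1 + e) * t₁ := by
    refine le_of_deriv (f := fun s => T s - l / (1 + e) * s) (f' := fun s => h s - l / (1 + e))
      ht₁0 ?_ ?_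
    · intro s hs _
      have a1 := (hasDerivAt_id s).const_mul (l / (1 + e))
      rw [mul_one] at a1
      exact (fl.dT s hs).sub a1
    · intro s hs _
      have h2 := fl.hH s hs.le
      have h3 := H_le fl s hs.le
      have h4 := fl.hpos s hs.le
      rw [sub_nonneg, div_le_iff₀ he, ← h2]
      exact mul_le_mul_of_nonneg_left h3 h4.le
  rw [fl.T0] at h1
  have h2 : c ≤ T t₁ := by
    have h3 : l / (1 + e) * t₁ = c := by
      rw [ht₁]
      field_simp
    linarith
  have hcont : ContinuousOn T (Set.Icc 0 t₁) := fun s hs =>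
    (fl.dT s hs.1).continuousAt.continuousWithinAt
  have h4 := intermediate_value_Icc ht₁0 hcont
  have h5 : c ∈ Set.Icc (T 0) (T t₁) := by
    rw [fl.T0]
    exact ⟨hc, h2⟩
  obtain ⟨t, ht, h6⟩ := h4 h5
  exact ⟨t, ht.1, h6⟩

theorem K_le (fl : Flow k q0 e l h y g K lm o R3 H F T O) (c nu : ℝ)
    (h1 : q0 * (1 + e) * c < 1) (h2 : (1 - q0) * (1 + e) ≤ nu * (1 - q0 * (1 + e) * c)) (t : ℝ)
    (ht : 0 ≤ t) (hT : T t ≤ c) : K t ≤ nu * y 0 := by
  have he := fl.e0
  have hq := fl.q00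
  have ha : 0 < q0 * (1 + e) := by positivity
  have h3 : - (K 0 * (1 - q0 * (1 + e) * T 0)) ≤ - (K t * (1 - q0 * (1 + e) * T t)) := by
    refine le_of_deriv (f := fun s => - (K s * (1 - q0 * (1 + e) * T s)))
      (f' := fun s => - (h s * (- R3 s - 2 * K s * g s) * (1 - q0 * (1 + e) * T s) +
        K s * (- (q0 * (1 + e) * h s)))) ht ?_ ?_
    · intro s hs _
      have a1 := (fl.dT s hs).const_mul (q0 * (1 + e))
      have a2 := a1.const_sub 1
      exact ((fl.dK s hs).mul a2).neg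
    · intro s hs hst
      have b1 := fl.hpos s hs.le
      have b2 := K_nn fl s hs.le
      have b3 := H_le fl s hs.le
      have b4 := fl.Rlo s hs.le
      have b5 := fl.g0 s hs.le
      have b6 := T_nn fl s hs.le
      have b7 : T s ≤ c := (T_mono fl s t hs.le hst.le).trans hT
      have b8 : q0 * (1 + e) * T s ≤ q0 * (1 + e) * c := mul_le_mul_of_nonneg_left b7 ha.le
      have b9 : 0 ≤ 1 - q0 * (1 + e) * T s := by linarith
      have b10 : 1 - q0 * (1 + e) * T s ≤ 1 := by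
        have : 0 ≤ q0 * (1 + e) * T s := by positivity
        linarith
      have b11 : - R3 s ≤ K s * (q0 * (1 + e)) :=
        b4.trans (mul_le_mul_of_nonneg_left (mul_le_mul_of_nonneg_left b3 hq.le) b2)
      have b12 : (- R3 s - 2 * K s * g s) ≤ K s * (q0 * (1 + e)) := by
        have : 0 ≤ K s * g s := by positivity
        nlinarith
      have b13 : (- R3 s - 2 * K s * g s) * (1 - q0 * (1 + e) * T s) ≤ K s * (q0 * (1 + e)) := by
        have c1 := mul_le_mul_of_nonneg_right b12 b9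
        have c2 : K s * (q0 * (1 + e)) * (1 - q0 * (1 + e) * T s) ≤ K s * (q0 * (1 + e)) * 1 :=
          mul_le_mul_of_nonneg_left b10 (by positivity)
        linarith
      have b14 := mul_le_mul_of_nonneg_left b13 b1.le
      nlinarith
  rw [fl.T0, fl.iK] at h3
  have h4 : K t * (1 - q0 * (1 + e) * T t) ≤ y 0 * ((1 - q0) * (1 + e)) := by linarith
  have h5 : 0 < 1 - q0 * (1 + e) * c := by linarith
  have h6 : q0 * (1 + e) * T t ≤ q0 * (1 + e) * c := mul_le_mul_of_nonneg_left hT ha.le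
  have h7 : K t * (1 - q0 * (1 + e) * c) ≤ K t * (1 - q0 * (1 + e) * T t) :=
    mul_le_mul_of_nonneg_left (by linarith) (K_nn fl t ht)
  have h8 : y 0 * ((1 - q0) * (1 + e)) ≤ y 0 * (nu * (1 - q0 * (1 + e) * c)) :=
    mul_le_mul_of_nonneg_left h2 (y_nn fl 0 le_rfl)
  have h9 : K t * (1 - q0 * (1 + e) * c) ≤ (nu * y 0) * (1 - q0 * (1 + e) * c) := by
    calc _ ≤ _ := h7
      _ ≤ _ := h4
      _ ≤ _ := h8
      _ = _ := by ring
  exact le_of_mul_le_mul_right h9 h5

theorem y_ge (fl : Flow k q0 e l h y g K lm o R3 H F T O) (c nu : ℝ)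
    (h1 : q0 * (1 + e) * c < 1) (h2 : (1 - q0) * (1 + e) ≤ nu * (1 - q0 * (1 + e) * c)) (t : ℝ)
    (ht : 0 ≤ t) (hT : T t ≤ c) : y 0 * (1 - nu * T t) ≤ y t := by
  have h3 : y 0 + nu * y 0 * T 0 ≤ y t + nu * y 0 * T t := by
    refine le_of_deriv (f := fun s => y s + nu * y 0 * T s)
      (f' := fun s => h s * (- K s + (1 - y s) * g s) + nu * y 0 * h s) ht ?_ ?_
    · intro s hs _
      exact (fl.dy s hs).add ((fl.dT s hs).const_mul (nu * y 0))
    · intro s hs hst
      have b1 := fl.hpos s hs.le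
      have b2 : K s ≤ nu * y 0 :=
        K_le fl c nu h1 h2 s hs.le ((T_mono fl s t hs.le hst.le).trans hT)
      have b3 := fl.g0 s hs.le
      have b4 := fl.y1 s hs.le
      have b5 : 0 ≤ (1 - y s) * g s := mul_nonneg (by linarith) b3
      have b6 : 0 ≤ h s * (- K s + (1 - y s) * g s + nu * y 0) :=
        mul_nonneg b1.le (by linarith)
      linarith
  rw [fl.T0] at h3
  linarith

end

theorem fl1 : S_FL1 := by
  intro k q0 e l h y g K lm o R3 H F T O fl
  refine ⟨?_, T_mono fl, T_surj fl, ?_⟩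
  · intro t ht
    exact ⟨H_le fl t ht, Hpos fl t ht, lm_ge fl t ht, y_le fl t ht, O_nn fl t ht, T_nn fl t ht,
      K_nn fl t ht⟩
  · intro c nu _ h1 h2 t ht hT
    exact ⟨K_le fl c nu h1 h2 t ht hT, y_ge fl c nu h1 h2 t ht hT⟩

end Pool.Agent.Q53.EM

namespace Pool.Agent.Q54.EM

theorem fl1 : S_FL1 := Pool.Agent.Q53.EM.fl1

end Pool.Agent.Q54.EM
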