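import Pool.Agent.Q53.EM.FL1

/-!
# Project EM, job FL2 (helper53)
-/

set_option autoImplicit false

namespace Pool.Agent.Q53.EM

open Finset Filter Topology
open Pool.Agent.Q54.EM

/-- the algebra of the lower bound for the derivative of `E1`; `b = 1 - q0` -/
theorem fl2_alg (b e lm y y0 o g K R3 : ℝ) (hb : 1 / 2 ≤ b) (hb1 : b ≤ 1) (he : 0 ≤ e)
    (hlm : b ≤ lm) (hlm1 : lm < 1) (hy : 0 ≤ y) (hyy : y ≤ y0) (hy0 : y0 ≤ 1) (ho : 0 ≤ o)
    (hg : 0 ≤ g) (hKg : lm * (g + y) ≤ K) (hE : K - lm * y ≤ b * y0 * e)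
    (hR : R3 ≤ K * (b * (1 + e))) :
    - (y0 * (b * (e * (1 + e) * (2 + b) + (1 - b)))) - lm * y * o ≤
      - R3 - 2 * K * g - lm * (1 - lm + o) * y - lm * (- K + (1 - y) * g) := by
  set E := K - lm * y with hEdef
  have hK : K = lm * y + E := by rw [hEdef]; ring
  have hlm0 : 0 < lm := by linarith
  have hE0 : 0 ≤ E := by
    have : 0 ≤ lm * g := by positivity
    rw [hEdef]
    linarith
  have hgE : lm * g ≤ E := by rw [hEdef]; linarith
  have hK0 : 0 ≤ K := by rw [hK]; positivity
  have hy00 : 0 ≤ y0 := hy.trans hyy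
  -- (i)
  have i1 : K * (b * (1 + e) - lm) ≤ y0 * (b ^ 2 * e * (1 + e)) := by
    by_cases hs : b * (1 + e) - lm ≤ 0
    · have h1 : K * (b * (1 + e) - lm) ≤ 0 := mul_nonpos_of_nonneg_of_nonpos hK0 hs
      have h2 : 0 ≤ y0 * (b ^ 2 * e * (1 + e)) := by positivity
      linarith
    · push Not at hs
      have h1 : K ≤ (lm + b * e) * y0 := by
        have : lm * y ≤ lm * y0 := mul_le_mul_of_nonneg_left hyy hlm0.le
        rw [hK]
        linarith
      have h2 : K * (b * (1 + e) - lm) ≤ (lm + b * e) * y0 * (b * (1 + e) - lm) :=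
        mul_le_mul_of_nonneg_right h1 hs.le
      have h3 : (lm + b * e) * (b * (1 + e) - lm) ≤ b ^ 2 * e * (1 + e) := by
        have h4 : 0 ≤ (lm - b) * lm := mul_nonneg (by linarith) hlm0.le
        nlinarith
      have h5 : (lm + b * e) * y0 * (b * (1 + e) - lm) =
          y0 * ((lm + b * e) * (b * (1 + e) - lm)) := by ring
      rw [h5] at h2
      exact h2.trans (mul_le_mul_of_nonneg_left h3 hy00)
  -- (ii)
  have i2 : 2 * K * g + lm * (1 - y) * g ≤ 2 * (1 + e) * (b * y0 * e) := by
    -- E * g ≤ e * E, since b g ≤ lm g ≤ E ≤ b y0 e ≤ b e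
    have h0 : g ≤ e := by
      have h1 : b * g ≤ lm * g := mul_le_mul_of_nonneg_right hlm hg
      have h2 : b * y0 * e ≤ b * e := by
        have : b * e * y0 ≤ b * e * 1 := mul_le_mul_of_nonneg_left hy0 (by positivity)
        linarith
      have h3 : b * g ≤ b * e := by linarith
      exact le_of_mul_le_mul_left h3 (by linarith)
    have h1 : 2 * K * g = 2 * y * (lm * g) + 2 * E * g := by rw [hK]; ring
    have h2 : 2 * y * (lm * g) ≤ 2 * y * E := mul_le_mul_of_nonneg_left hgE (by positivity)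
    have h3 : 2 * E * g ≤ 2 * E * e := mul_le_mul_of_nonneg_left h0 (by positivity)
    have hy1 : y ≤ 1 := hyy.trans hy0
    have h4 : lm * (1 - y) * g ≤ (1 - y) * E := by
      have := mul_le_mul_of_nonneg_left hgE (show 0 ≤ 1 - y by linarith)
      linarith
    have h5 : E * (1 + y + 2 * e) ≤ E * (2 * (1 + e)) :=
      mul_le_mul_of_nonneg_left (by linarith) hE0
    have h6 : E * (2 * (1 + e)) ≤ (b * y0 * e) * (2 * (1 + e)) :=
      mul_le_mul_of_nonneg_right hE (by positivity)
    nlinarith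
  -- (iii)
  have i3 : lm * (1 - lm) * y ≤ b * (1 - b) * y0 := by
    have h1 : lm * (1 - lm) ≤ b * (1 - b) := by
      have : 0 ≤ (lm - b) * (lm + b - 1) := mul_nonneg (by linarith) (by linarith)
      nlinarith
    have h2 : 0 ≤ lm * (1 - lm) := mul_nonneg hlm0.le (by linarith)
    calc lm * (1 - lm) * y ≤ lm * (1 - lm) * y0 := mul_le_mul_of_nonneg_left hyy h2
      _ ≤ b * (1 - b) * y0 := mul_le_mul_of_nonneg_right h1 hy00
  nlinarith

theorem fl2' : S_FL2 := by
  intro k q0 e l h y g K lm o R3 H F T O fl c nu hc hq2 h1 h2 h3 h4 t₀ ht₀ hT₀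
  have he := fl.e0
  have hq := fl.q00
  have hq1 := fl.q01
  have hy0 := fl.y1 0 le_rfl
  have hy00 := y_nn fl 0 le_rfl
  have hac : 0 < 1 - q0 * (1 + e) * c := by linarith
  have hnu : 0 ≤ nu := by
    have a1 : 0 < nu * (1 - q0 * (1 + e) * c) :=
      lt_of_lt_of_le (mul_pos (by linarith) (by linarith)) h2
    exact ((pos_iff_pos_of_mul_pos a1).2 hac).le
  set s1 := (1 - q0) * (e * (1 + e) * (3 - q0) + q0) with hs1
  set E0 := (1 - q0) * y 0 * e with hE0
  have hs10 : 0 ≤ s1 := by
    have a1 : 0 ≤ 3 - q0 := by linarith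
    have a2 : 0 ≤ 1 - q0 := by linarith
    rw [hs1]
    positivity
  have key : 0 ≤ (K t₀ - lm t₀ * y t₀) - E0 + y 0 * s1 * T t₀ + O t₀ := by
    refine nonneg_of_deriv (D := fun t => (K t - lm t * y t) - E0 + y 0 * s1 * T t + O t)
      (D' := fun t => (h t * (- R3 t - 2 * K t * g t) -
        (h t * (lm t * (1 - lm t + o t)) * y t + lm t * (h t * (- K t + (1 - y t) * g t)))) +
          y 0 * s1 * h t + h t * (lm t * y t * o t)) ht₀ ?_ ?_ ?_
    · intro t ht _
      exact ((((fl.dK t ht).sub ((fl.dlm t ht).mul (fl.dy t ht))).sub_const E0).add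
        ((fl.dT t ht).const_mul (y 0 * s1))).add (fl.dO t ht)
    · show 0 ≤ (K 0 - lm 0 * y 0) - E0 + y 0 * s1 * T 0 + O 0
      rw [fl.T0, fl.O0, fl.iK, fl.il, hE0]
      have : y 0 * ((1 - q0) * (1 + e)) - (1 - q0) * y 0 - (1 - q0) * y 0 * e +
        y 0 * s1 * 0 + 0 = 0 := by ring
      rw [this]
    · intro t ht htt hneg

      have hTt : T t ≤ c := (T_mono fl t t₀ ht htt).trans hT₀
      have hT0 := T_nn fl t ht
      have hO := O_nn fl t ht
      have hE : K t - lm t * y t ≤ (1 - q0) * y 0 * e := by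
        have : 0 ≤ y 0 * s1 * T t := by positivity
        rw [← hE0]
        linarith
      have hh := fl.hpos t ht
      have hHp := Hpos fl t ht
      have hHl := H_le fl t ht
      have hK0 := K_nn fl t ht
      have hyt := y_nn fl t ht
      have hlm := lm_ge fl t ht
      have hg := fl.g0 t ht
      have hKg := fl.Kg t ht
      have hyge := y_ge fl c nu h1 h2 t ht hTt
      have hR : R3 t ≤ K t * ((1 - q0) * (1 + e)) := by
        have a1 := fl.Rup t ht
        have a2 : 1 - y t - K t / H t ≤ 0 := by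
          have b1 : (1 - q0) * y t ≤ K t := by
            have c1 : (1 - q0) * y t ≤ lm t * y t := mul_le_mul_of_nonneg_right hlm hyt
            have c2 : 0 ≤ lm t * g t := mul_nonneg (by linarith) hg
            nlinarith
          have b2 : (1 - q0) * y t / (1 + e) ≤ K t / H t := by
            refine (div_le_div_of_nonneg_right b1 (by linarith)).trans ?_
            exact div_le_div_of_nonneg_left hK0 hHp hHl
          have b3 : y 0 * (1 - nu * c) ≤ y t := by
            refine le_trans ?_ hyge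
            refine mul_le_mul_of_nonneg_left ?_ hy00
            have := mul_le_mul_of_nonneg_left hTt hnu
            linarith
          have b4 : 1 ≤ y t * (1 + (1 - q0) / (1 + e)) := by
            refine h4.trans (mul_le_mul_of_nonneg_right b3 ?_)
            have : 0 ≤ (1 - q0) / (1 + e) := div_nonneg (by linarith) (by linarith)
            linarith
          have b5 : y t * (1 + (1 - q0) / (1 + e)) = y t + (1 - q0) * y t / (1 + e) := by ring
          linarith
        have a3 : (1 / k) * (1 - y t - K t / H t) ≤ 0 :=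
          mul_nonpos_of_nonneg_of_nonpos (by have := fl.k0; positivity) a2
        have a4 : (1 - q0) * H t ≤ (1 - q0) * (1 + e) :=
          mul_le_mul_of_nonneg_left hHl (by linarith)
        exact a1.trans (mul_le_mul_of_nonneg_left (by linarith) hK0)
      have halg := fl2_alg (1 - q0) e (lm t) (y t) (y 0) (o t) (g t) (K t) (R3 t) (by linarith)
        (by linarith) he hlm (fl.lm1 t ht) hyt (y_le fl t ht) hy0 (fl.o0 t ht) hg hKg hE hR
      have e1 : y 0 * ((1 - q0) * (e * (1 + e) * (2 + (1 - q0)) + (1 - (1 - q0)))) = y 0 * s1 := by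
        rw [hs1]
        ring
      rw [e1] at halg
      have hfin : 0 ≤ h t * ((- R3 t - 2 * K t * g t - lm t * (1 - lm t + o t) * y t -
          lm t * (- K t + (1 - y t) * g t)) - (- (y 0 * s1) - lm t * y t * o t)) :=
        mul_nonneg hh.le (by linarith)
      have e2 : (h t * (- R3 t - 2 * K t * g t) -
        (h t * (lm t * (1 - lm t + o t)) * y t + lm t * (h t * (- K t + (1 - y t) * g t)))) +
          y 0 * s1 * h t + h t * (lm t * y t * o t) =
          h t * ((- R3 t - 2 * K t * g t - lm t * (1 - lm t + o t) * y t -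
          lm t * (- K t + (1 - y t) * g t)) - (- (y 0 * s1) - lm t * y t * o t)) := by ring
      show 0 ≤ (h t * (- R3 t - 2 * K t * g t) -
        (h t * (lm t * (1 - lm t + o t)) * y t + lm t * (h t * (- K t + (1 - y t) * g t)))) +
          y 0 * s1 * h t + h t * (lm t * y t * o t)
      rw [e2]
      exact hfin
  have hT0 := T_nn fl t₀ ht₀
  have hs2 : y 0 * s1 * T t₀ ≤ E0 * (T t₀ / c) := by
    have a1 : c * s1 ≤ (1 - q0) * e := by
      have := mul_le_mul_of_nonneg_left h3 (show 0 ≤ 1 - q0 by linarith)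
      rw [hs1]
      nlinarith
    have a2 : s1 ≤ (1 - q0) * e / c := by
      rw [le_div_iff₀ hc]
      linarith
    have a3 : y 0 * s1 ≤ E0 / c := by
      have := mul_le_mul_of_nonneg_left a2 hy00
      refine this.trans (le_of_eq ?_)
      rw [hE0]
      ring
    have a4 := mul_le_mul_of_nonneg_right a3 hT0
    refine a4.trans (le_of_eq ?_)
    ring
  have e3 : E0 * (1 - T t₀ / c) = E0 - E0 * (T t₀ / c) := by ring
  rw [e3]
  linarith

theorem fl2 : S_FL1 → S_FL2 := fun _ => fl2'

end Pool.Agent.Q53.EM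

namespace Pool.Agent.Q54.EM

theorem fl2 : S_FL1 → S_FL2 := Pool.Agent.Q53.EM.fl2

end Pool.Agent.Q54.EM
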