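import Pool.Agent.Q53.EM.FL1

/-!
# Project EM, job FL3 (helper53)
-/

set_option autoImplicit false

namespace Pool.Agent.Q53.EM

open Finset Filter Topology
open Pool.Agent.Q54.EM

theorem fl3 : S_FL2 → S_FL1 → S_THA → S_RMO → S_FF → S_FL3 := by
  intro hFL2 _ hTHA hRMO _
  intro k q0 e l h y g K lm o R3 H F T O fl c nu hc hc2 hq2 h1 h2 h3 h4 h5
  have he := fl.e0
  have hq := fl.q00
  have hq1 := fl.q01
  have hy0 := fl.y1 0 le_rfl
  have hy00 := y_nn fl 0 le_rfl
  have hac : 0 < 1 - q0 * (1 + e) * c := by linarith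
  have hnu : 0 ≤ nu := by
    have a1 : 0 < nu * (1 - q0 * (1 + e) * c) :=
      lt_of_lt_of_le (mul_pos (by linarith) (by linarith)) h2
    exact ((pos_iff_pos_of_mul_pos a1).2 hac).le
  obtain ⟨t₁, ht₁, hTt₁⟩ := T_surj fl c hc.le
  have hlow := hFL2 k q0 e l h y g K lm o R3 H F T O fl c nu hc hq2 h1 h2 h3 h4
  choose! d hd1 hd2 hd3 using hRMO k q0 e l h y g K lm o R3 H F T O fl
  set E0 := (1 - q0) * y 0 * e with hE0
  have hE00 : 0 ≤ E0 := by
    have : 0 ≤ 1 - q0 := by linarith
    rw [hE0]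
    positivity
  set P : ℝ → ℝ := fun s => E0 * ((y 0 - q0) * (s - s ^ 2 / (2 * c)) -
    nu * y 0 * (s ^ 2 / 2 - s ^ 3 / (3 * c))) with hP
  set P' : ℝ → ℝ := fun s => E0 * ((y 0 - q0) * (1 - 2 * s / (2 * c)) -
    nu * y 0 * (2 * s / 2 - 3 * s ^ 2 / (3 * c))) with hP'
  have hPd : ∀ s, HasDerivAt P (P' s) s := by
    intro s
    have a1 : HasDerivAt (fun s : ℝ => s) 1 s := hasDerivAt_id' s
    have a2 : HasDerivAt (fun s : ℝ => s ^ 2) (2 * s) s := by
      have := hasDerivAt_pow 2 s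
      simpa using this
    have a3 : HasDerivAt (fun s : ℝ => s ^ 3) (3 * s ^ 2) s := by
      have := hasDerivAt_pow 3 s
      simpa using this
    exact (((a1.sub (a2.div_const (2 * c))).const_mul (y 0 - q0)).sub
      (((a2.div_const 2).sub (a3.div_const (3 * c))).const_mul (nu * y 0))).const_mul E0
  have hPval : ∀ s, P' s = (y 0 * (1 - nu * s) - q0) * (E0 * (1 - s / c)) := by
    intro s
    rw [hP']
    field_simp
    ring
  have key : (F 0 - y 0 * ff (1 - lm 0)) - P (T 0) + (T 0 - 1 / 2) * O 0 ≤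
      (F t₁ - y t₁ * ff (1 - lm t₁)) - P (T t₁) + (T t₁ - 1 / 2) * O t₁ := by
    refine le_of_deriv (f := fun t => (F t - y t * ff (1 - lm t)) - P (T t) + (T t - 1 / 2) * O t)
      (f' := fun t => d t - P' (T t) * h t + (h t * O t + (T t - 1 / 2) * (h t * (lm t * y t * o t))))
      ht₁ ?_ ?_
    · intro t ht _
      have a1 := (hPd (T t)).comp t (fl.dT t ht)
      exact ((hd1 t ht).sub a1).add (((fl.dT t ht).sub_const (1 / 2)).mul (fl.dO t ht))
    · intro t ht htt
      have ht0 := ht.le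
      have hTt : T t ≤ c := (T_mono fl t t₁ ht0 htt.le).trans hTt₁.le
      have hT0 := T_nn fl t ht0
      have hO := O_nn fl t ht0
      have hh := fl.hpos t ht0
      have hyt := y_nn fl t ht0
      have hlm := lm_ge fl t ht0
      have hlm1 := fl.lm1 t ht0
      have hlm0 := fl.lm0 t ht0
      have ho := fl.o0 t ht0
      have hyge := y_ge fl c nu h1 h2 t ht0 hTt
      have hl := hlow t ht0 hTt
      have hd := hd2 t ht0
      set A := y 0 * (1 - nu * T t) - q0 with hA
      have hA0 : 0 ≤ A := by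
        have a1 := mul_le_mul_of_nonneg_left hTt hnu
        have a2 : y 0 * (1 - nu * c) ≤ y 0 * (1 - nu * T t) :=
          mul_le_mul_of_nonneg_left (by linarith) hy00
        rw [hA]
        linarith
      have hA1 : A ≤ 1 := by
        have a1 : 0 ≤ y 0 * (nu * T t) := by positivity
        rw [hA]
        linarith
      have hE1 : 0 ≤ K t - lm t * y t := by
        have a1 := fl.Kg t ht0
        have a2 : 0 ≤ lm t * g t := mul_nonneg hlm0.le (fl.g0 t ht0)
        linarith
      have hyq : A ≤ y t - (1 - lm t) := by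
        rw [hA]
        linarith
      have b1 : A * (K t - lm t * y t) ≤ (y t - (1 - lm t)) * (K t - lm t * y t) :=
        mul_le_mul_of_nonneg_right hyq hE1
      have b2 : A * (E0 * (1 - T t / c) - O t) ≤ A * (K t - lm t * y t) :=
        mul_le_mul_of_nonneg_left hl hA0
      have b3 : 0 ≤ (1 - A) * O t := mul_nonneg (by linarith) hO
      have b4 : 0 ≤ y t * o t * (1 / 2 - (1 / 2 - T t) * lm t) := by
        refine mul_nonneg (mul_nonneg hyt ho) ?_
        have : 0 ≤ T t * lm t := mul_nonneg hT0 hlm0.le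
        nlinarith
      have e1 : P' (T t) = A * (E0 * (1 - T t / c)) := hPval (T t)
      have b5 : 0 ≤ (y t - (1 - lm t)) * (K t - lm t * y t) + y t * o t / 2 -
          A * (E0 * (1 - T t / c)) + O t + (T t - 1 / 2) * (lm t * y t * o t) := by
        nlinarith
      have b6 := mul_nonneg hh.le b5
      show 0 ≤ d t - P' (T t) * h t + (h t * O t + (T t - 1 / 2) * (h t * (lm t * y t * o t)))
      rw [e1]
      nlinarith
  rw [fl.T0, fl.O0, hTt₁, fl.il] at key
  have hR := hTHA k q0 e l h y g K lm o R3 H F T O fl t₁ ht₁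
  have hO := O_nn fl t₁ ht₁
  have hO2 : (c - 1 / 2) * O t₁ ≤ 0 := mul_nonpos_of_nonpos_of_nonneg (by linarith) hO
  have hP0 : P 0 = 0 := by
    rw [hP]
    ring
  have hPc : P c = (1 - q0) * y 0 * e * c / 2 * (y 0 * (1 - nu * c / 3) - q0) := by
    rw [hP, hE0]
    field_simp
    ring
  have e2 : (1 : ℝ) - (1 - q0) = q0 := by ring
  rw [hP0, hPc, e2] at key
  linarith

end Pool.Agent.Q53.EM

namespace Pool.Agent.Q54.EM

theorem fl3 : S_FL2 → S_FL1 → S_THA → S_RMO → S_FF → S_FL3 := Pool.Agent.Q53.EM.fl3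

end Pool.Agent.Q54.EM
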